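import Pool.Agent.NDR.StmtsC

set_option autoImplicit false

/-!
# Squad NDR, row CNV
-/

namespace Pool.Agent.NDR.H23

open Finset

theorem ex_inj {σ : Type} : Function.Injective (ex : (σ →₀ ℕ) → Option σ → ℤ) := by
  intro α β h
  ext i
  have h1 : ex α (some i) = ex β (some i) := by rw [h]
  have h2 : ((α i : ℕ) : ℤ) = ((β i : ℕ) : ℤ) := h1
  exact_mod_cast h2

theorem sum_hatS {σ : Type} {K : Type} [Field K] (G : MvPolynomial σ K)
    (φ : (Option σ → ℤ) → ℝ) : ∑ a ∈ hatS G, φ a = ∑ α ∈ G.support, φ (ex α) := by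
  classical
  unfold hatS
  rw [Finset.sum_image fun α _ β _ h => ex_inj h]

theorem cnv : CnvStmt := by
  intro σ _ K _ G I x
  constructor
  · rintro ⟨l, hl, h⟩
    refine ⟨fun α => l (ex α), fun α => hl _, ?_, ?_⟩
    · intro i hi
      have h1 := h (some i) (Finset.some_mem_insertNone.2 hi)
      rw [sum_hatS] at h1
      refine h1.trans (Finset.sum_congr rfl fun α _ => ?_)
      have e1 : ex α (some i) = ((α i : ℕ) : ℤ) := rfl
      rw [e1, Int.cast_natCast]
    · have h1 := h none (Finset.none_mem_insertNone)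
      rw [sum_hatS] at h1
      symm
      refine h1.trans (Finset.sum_congr rfl fun α _ => ?_)
      have e1 : ex α none = 1 := rfl
      rw [e1, Int.cast_one, mul_one]
  · rintro ⟨l, hl, h, h0⟩
    refine ⟨Function.extend ex l 0, ?_, ?_⟩
    · intro a
      by_cases ha : ∃ α, ex α = a
      · obtain ⟨α, rfl⟩ := ha
        rw [ex_inj.extend_apply]
        exact hl α
      · rw [Function.extend_apply' _ _ _ ha]
        exact le_refl _
    · intro v hv
      rw [sum_hatS]
      rcases v with _ | i
      · rw [← h0]
        refine Finset.sum_congr rfl fun α _ => ?_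
        have e1 : ex α none = 1 := rfl
        rw [ex_inj.extend_apply, e1, Int.cast_one, mul_one]
      · have hi : i ∈ I := Finset.some_mem_insertNone.1 hv
        refine (h i hi).trans (Finset.sum_congr rfl fun α _ => ?_)
        have e1 : ex α (some i) = ((α i : ℕ) : ℤ) := rfl
        rw [ex_inj.extend_apply, e1, Int.cast_natCast]

end Pool.Agent.NDR.H23
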